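import Mathlib
import Pool.Agent.Work.MP_bb898f_an.Main

set_option autoImplicit false

open MeasureTheory Filter Topology Set
open scoped ENNReal NNReal

namespace Pool.Agent.Results.MP_bb898f_an.ImageOfDimension

open Pool.Agent.Work.MP_bb898f_an

/-- The set of values of the Hausdorff dimension of the asymptotic sets of the Gauss map,
`{dimH AS(x) : x ∈ [0,1)}`, is exactly the closed interval `[0, 1/2]`. -/
theorem result :
    (fun x : ℝ => dimH (asympSet x)) '' Ico (0 : ℝ) 1 = Icc (0 : ℝ≥0∞) (1 / 2) :=
  image_dimH_asympSet

end Pool.Agent.Results.MP_bb898f_an.ImageOfDimension
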